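import Mathlib

set_option autoImplicit false

open Filter Topology

namespace Pool.Agent.Results.MP_7e65d6_nt.Full

/-- Upper density of `A` relative to `E`. -/
noncomputable def relUpperDensity (E A : Set ℕ) : ℝ :=
  limsup (fun N : ℕ => ((A ∩ E ∩ Set.Icc 1 N).ncard : ℝ) / ((E ∩ Set.Icc 1 N).ncard : ℝ)) atTop

/-- `R` is `E`-intersective. -/
def IsIntersective (E R : Set ℕ) : Prop :=
  ∀ A : Set ℕ, A ⊆ E → 0 < relUpperDensity E A → ∃ a ∈ A, ∃ b ∈ A, ∃ r ∈ R, a = b + r

open Finset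

lemma thick_chain (R : Set ℕ) (hR : ∀ j : ℕ, ∃ x : ℕ, 1 ≤ x ∧ ∀ r, x ≤ r → r ≤ x + j → r ∈ R)
    (m : ℕ) : ∃ T : Finset ℕ, T.card = m ∧ ∀ s ∈ T, ∀ t ∈ T, s < t → t - s ∈ R := by
  induction m with
  | zero => exact ⟨∅, rfl, by simp⟩
  | succ m ih =>
    obtain ⟨T, h1, h2⟩ := ih
    obtain ⟨x, hx1, hx⟩ := hR (T.sup id)
    have hle : ∀ s ∈ T, s ≤ T.sup id := fun s hs => le_sup (f := id) hs
    refine ⟨insert (x + T.sup id) T, ?_, ?_⟩
    · rw [card_insert_of_notMem, h1]
      intro h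
      have := hle _ h
      omega
    · intro s hs t ht hst
      rw [mem_insert] at hs ht
      rcases ht with rfl | ht
      · rcases hs with rfl | hs
        · omega
        · have := hle _ hs
          exact hx _ (by omega) (by omega)
      · rcases hs with rfl | hs
        · have := hle _ ht
          omega
        · exact h2 s hs t ht hst

lemma thick_inter (R : Set ℕ) (hR : ∀ j : ℕ, ∃ x : ℕ, 1 ≤ x ∧ ∀ r, x ≤ r → r ≤ x + j → r ∈ R) :
    IsIntersective (Set.Ici 1) R := by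
  classical
  intro A _ hA
  by_contra hcon
  push Not at hcon
  obtain ⟨m, hm⟩ := exists_nat_one_div_lt (half_pos hA)
  obtain ⟨T, hT1, hT2⟩ := thick_chain R hR (m + 1)
  have hle : ∀ s ∈ T, s ≤ T.sup id := fun s hs => le_sup (f := id) hs
  have hb : ∀ N : ℕ, (m + 1) * ((Icc 1 N).filter (· ∈ A)).card ≤ N + T.sup id := by
    intro N
    rw [← hT1, ← card_product]
    have : N + T.sup id = (Icc 1 (N + T.sup id)).card := by simp
    rw [this]
    refine card_le_card_of_injOn (fun p => p.1 + p.2) ?_ ?_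
    · intro p hp
      simp only [coe_product, coe_filter, mem_Icc, Set.mem_prod, mem_coe, Set.mem_ofPred_eq,
        coe_Icc, Set.mem_Icc] at hp ⊢
      have := hle _ hp.1
      omega
    · intro p hp q hq hpq
      simp only [coe_product, coe_filter, mem_Icc, Set.mem_prod, mem_coe,
        Set.mem_ofPred_eq] at hp hq hpq
      rcases lt_trichotomy p.1 q.1 with h | h | h
      · exact absurd (by omega) (hcon p.2 hp.2.2 q.2 hq.2.2 _ (hT2 _ hp.1 _ hq.1 h))
      · exact Prod.ext h (by omega)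
      · exact absurd (by omega) (hcon q.2 hq.2.2 p.2 hp.2.2 _ (hT2 _ hq.1 _ hp.1 h))
  have hlim : relUpperDensity (Set.Ici 1) A ≤ 2 * (1 / ((m : ℝ) + 1)) := by
    refine limsup_le_of_le (isCoboundedUnder_le_of_le (x := 0) _ fun N => by positivity) ?_
    filter_upwards [eventually_ge_atTop (T.sup id + 1)] with N hN
    have e1 : A ∩ Set.Ici 1 ∩ Set.Icc 1 N = ↑((Icc 1 N).filter (· ∈ A)) := by
      ext a
      simp only [Set.mem_inter_iff, Set.mem_Ici, Set.mem_Icc, coe_filter, mem_Icc,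
        Set.mem_ofPred_eq]
      tauto
    have e2 : Set.Ici 1 ∩ Set.Icc 1 N = ↑(Icc 1 N) := by
      ext a
      simp only [Set.mem_inter_iff, Set.mem_Ici, Set.mem_Icc, coe_Icc]
      tauto
    rw [e1, e2, Set.ncard_coe_finset, Set.ncard_coe_finset, Nat.card_Icc, Nat.add_sub_cancel]
    have h1 : (m + 1) * ((Icc 1 N).filter (· ∈ A)).card ≤ 2 * N := (hb N).trans (by omega)
    have h2 : ((m : ℝ) + 1) * ((Icc 1 N).filter (· ∈ A)).card ≤ 2 * N := by exact_mod_cast h1
    have h3 : (0 : ℝ) < N := by exact_mod_cast (by omega : 0 < N)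
    rw [mul_one_div, div_le_div_iff₀ h3 (by positivity)]
    linarith
  linarith

open Classical in
noncomputable def EN (E : Set ℕ) (N : ℕ) : Finset ℕ := (Icc 1 N).filter (· ∈ E)

open Classical in
noncomputable def cnt (E : Set ℕ) (N x j : ℕ) : ℕ :=
  ∑ e ∈ EN E N, ((Ico x (x + j)).filter fun r => e + r ∈ E).card

lemma cnt_add (E : Set ℕ) (N x j j' : ℕ) :
    cnt E N x (j + j') = cnt E N x j + cnt E N (x + j) j' := by
  classical
  unfold cnt
  rw [← sum_add_distrib]
  refine sum_congr rfl fun e _ => ?_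
  rw [← card_union_of_disjoint, ← filter_union, Ico_union_Ico_eq_Ico (by omega) (by omega),
    add_assoc]
  exact disjoint_filter_filter (Ico_disjoint_Ico_consecutive _ _ _)

lemma good (E : Set ℕ) (hE : Tendsto (fun N : ℕ => ⨆ M : ℕ,
      ((E ∩ Set.Ico (M + 1) (M + 1 + N)).ncard : ℝ) / (N : ℝ)) atTop (𝓝 0))
    (j : ℕ) (θ : ℝ) (hθ : 0 < θ) (x0 : ℕ) :
    ∃ x, x0 ≤ x ∧ ∀ᶠ N in hyperfilter ℕ, (cnt E N x (j + 1) : ℝ) ≤ θ * (EN E N).card := by
  classical
  obtain ⟨L0, hL0⟩ := eventually_atTop.mp (hE.eventually_le_const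
    (by positivity : (0 : ℝ) < θ / (j + 1)))
  set m := L0 + 1 with hm
  have hsum : ∀ N k : ℕ, cnt E N x0 (k * (j + 1)) =
      ∑ i ∈ range k, cnt E N (x0 + i * (j + 1)) (j + 1) := by
    intro N k
    induction k with
    | zero => simp [cnt]
    | succ k ih => rw [sum_range_succ, ← ih, ← cnt_add, add_mul, one_mul]
  have hbd : ∀ N, (cnt E N x0 (m * (j + 1)) : ℝ) ≤ m * (θ * (EN E N).card) := by
    intro N
    set L := m * (j + 1) with hL
    have hL1 : L0 ≤ L := by
      rw [hL]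
      nlinarith
    have hLp : (0 : ℝ) < L := by
      rw [hL]
      positivity
    have h1 : ∀ e ∈ EN E N, (((Ico x0 (x0 + L)).filter fun r => e + r ∈ E).card : ℝ) ≤ m * θ := by
      intro e he
      have he1 : 1 ≤ e := (mem_Icc.mp (mem_filter.mp he).1).1
      have hbdd : BddAbove (Set.range fun M : ℕ =>
          ((E ∩ Set.Ico (M + 1) (M + 1 + L)).ncard : ℝ) / (L : ℝ)) := by
        refine ⟨1, ?_⟩
        rintro _ ⟨M, rfl⟩
        rw [div_le_one hLp]
        have := Set.ncard_le_ncard (Set.inter_subset_right (s := E)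
          (t := Set.Ico (M + 1) (M + 1 + L))) (Set.finite_Ico _ _)
        rw [Set.ncard_Ico_nat] at this
        exact_mod_cast this.trans (by omega)
      have h2 := (le_ciSup hbdd (e + x0 - 1)).trans (hL0 L hL1)
      have h3 : ((Ico x0 (x0 + L)).filter fun r => e + r ∈ E).card ≤
          (E ∩ Set.Ico (e + x0 - 1 + 1) (e + x0 - 1 + 1 + L)).ncard := by
        rw [← Set.ncard_coe_finset]
        refine Set.ncard_le_ncard_of_injOn (fun r => e + r) ?_ ?_
          ((Set.finite_Ico _ _).inter_of_right _)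
        · intro r hr
          simp only [coe_filter, mem_Ico, Set.mem_ofPred_eq, Set.mem_inter_iff,
            Set.mem_Ico] at hr ⊢
          exact ⟨hr.2, by omega, by omega⟩
        · intro r _ r' _ h
          simpa using h
      rw [div_le_iff₀ hLp] at h2
      calc _ ≤ ((E ∩ Set.Ico (e + x0 - 1 + 1) (e + x0 - 1 + 1 + L)).ncard : ℝ) := by
            exact_mod_cast h3
        _ ≤ θ / (j + 1) * L := h2
        _ = _ := by
            rw [hL]
            push_cast
            field_simp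
    unfold cnt
    push_cast
    refine (sum_le_sum h1).trans (le_of_eq ?_)
    rw [sum_const, nsmul_eq_mul]
    ring
  have hex : ∀ N, ∃ i ∈ (range m : Set ℕ),
      (cnt E N (x0 + i * (j + 1)) (j + 1) : ℝ) ≤ θ * (EN E N).card := by
    intro N
    have h1 := hbd N
    rw [hsum] at h1
    push_cast at h1
    have h2 : ∑ i ∈ range m, (cnt E N (x0 + i * (j + 1)) (j + 1) : ℝ) ≤
        ∑ i ∈ range m, θ * (EN E N).card := by
      rw [sum_const, card_range, nsmul_eq_mul]
      exact h1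
    obtain ⟨i, hi, hi'⟩ := exists_le_of_sum_le ⟨0, by simp [hm]⟩ h2
    exact ⟨i, hi, hi'⟩
  obtain ⟨i, -, hi⟩ := (Ultrafilter.eventually_exists_mem_iff (f := hyperfilter ℕ)
    (Finset.finite_toSet (range m))).mp (Eventually.of_forall hex)
  exact ⟨x0 + i * (j + 1), Nat.le_add_right _ _, hi⟩

lemma EN_large (E : Set ℕ) (hE1 : E ⊆ Set.Ici 1) (hE : E.Infinite) (B : ℕ) :
    ∀ᶠ N in hyperfilter ℕ, B ≤ (EN E N).card := by
  classical
  obtain ⟨T, hT1, hT2⟩ := hE.exists_subset_card_eq B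
  refine Nat.hyperfilter_le_atTop ?_
  filter_upwards [eventually_ge_atTop (T.sup id)] with N hN
  rw [← hT2]
  refine card_le_card fun t ht => ?_
  have h1 : t ≤ T.sup id := le_sup (f := id) ht
  exact mem_filter.mpr ⟨mem_Icc.mpr ⟨hE1 (hT1 ht), h1.trans hN⟩, hT1 ht⟩

lemma construct (E : Set ℕ) (hE1 : E ⊆ Set.Ici 1) (hE2 : E.Infinite)
    (hE : Tendsto (fun N : ℕ => ⨆ M : ℕ,
      ((E ∩ Set.Ico (M + 1) (M + 1 + N)).ncard : ℝ) / (N : ℝ)) atTop (𝓝 0)) :
    ∃ x N : ℕ → ℕ, ∀ k, N k + 1 ≤ x k ∧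
      4 * (2 * N k + x k + k + 1) ≤ (EN E (N (k + 1))).card ∧
      ∀ i ≤ k, (cnt E (N (k + 1)) (x i) (i + 1) : ℝ) ≤
        (1 / 8 * (1 / 2) ^ i) * (EN E (N (k + 1))).card := by
  choose X hX1 hX2 using fun j x0 => good E hE j (1 / 8 * (1 / 2) ^ j) (by positivity) x0
  have step : ∀ (k : ℕ) (p : {p : ℕ × Set ℕ // p.2 ∈ hyperfilter ℕ}),
      ∃ q : {p : ℕ × Set ℕ // p.2 ∈ hyperfilter ℕ}, q.1.1 ∈ q.1.2 ∧ q.1.2 ⊆ p.1.2 ∧
        4 * (2 * p.1.1 + X k (p.1.1 + 1) + k + 1) ≤ (EN E q.1.1).card ∧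
        ∀ N ∈ q.1.2, (cnt E N (X k (p.1.1 + 1)) (k + 1) : ℝ) ≤
          (1 / 8 * (1 / 2) ^ k) * (EN E N).card := by
    intro k p
    have h1 : p.1.2 ∩ {N | (cnt E N (X k (p.1.1 + 1)) (k + 1) : ℝ) ≤
        (1 / 8 * (1 / 2) ^ k) * (EN E N).card} ∈ hyperfilter ℕ :=
      inter_mem p.2 (hX2 k _)
    obtain ⟨N, hN1, hN2⟩ := (Eventually.and h1
      (EN_large E hE1 hE2 (4 * (2 * p.1.1 + X k (p.1.1 + 1) + k + 1)))).exists
    exact ⟨⟨(N, _), h1⟩, hN1, Set.inter_subset_left, hN2, fun M hM => hM.2⟩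
  choose F hF1 hF2 hF3 hF4 using step
  let s : ℕ → {p : ℕ × Set ℕ // p.2 ∈ hyperfilter ℕ} := fun k =>
    Nat.rec ⟨(0, Set.univ), univ_mem⟩ F k
  have hs : ∀ k, s (k + 1) = F k (s k) := fun k => rfl
  have hanti : Antitone fun k => (s k).1.2 :=
    antitone_nat_of_succ_le fun k => by
      rw [hs]
      exact hF2 k (s k)
  refine ⟨fun k => X k ((s k).1.1 + 1), fun k => (s k).1.1, fun k => ⟨hX1 _ _, ?_, ?_⟩⟩
  · simp only [hs]
    exact hF3 k (s k)
  · intro i hi
    refine hF4 i (s i) _ ?_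
    rw [← hs]
    refine hanti (Nat.succ_le_succ hi) ?_
    simp only [hs]
    exact hF1 k (s k)

/-- Every infinite set of positive integers of upper Banach density zero admits an intersective
set that is not intersective relative to it. -/
theorem result (E : Set ℕ) (hE1 : E ⊆ Set.Ici 1) (hE2 : E.Infinite)
    (hE : Tendsto (fun N : ℕ => ⨆ M : ℕ,
      ((E ∩ Set.Ico (M + 1) (M + 1 + N)).ncard : ℝ) / (N : ℝ)) atTop (𝓝 0)) :
    ∃ R : Set ℕ, R ⊆ Set.Ici 1 ∧ IsIntersective (Set.Ici 1) R ∧ ¬ IsIntersective E R := by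
  classical
  obtain ⟨x, N, h⟩ := construct E hE1 hE2 hE
  have hcard : ∀ M, (EN E M).card ≤ M := fun M => (card_filter_le _ _).trans (by simp)
  have hN1 : ∀ k, 2 * N k + x k + k + 1 ≤ N (k + 1) := fun k => by
    have := (h k).2.1.trans (hcard _)
    omega
  have hmono : Monotone N := monotone_nat_of_le_succ fun k => by
    have := hN1 k
    omega
  refine ⟨{r | ∃ i, x i ≤ r ∧ r ≤ x i + i}, ?_, thick_inter _ fun j => ?_, fun hI => ?_⟩
  · rintro r ⟨i, hi, -⟩
    have := (h i).1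
    show 1 ≤ r
    omega
  · refine ⟨x j, ?_, fun r h1 h2 => ⟨j, h1, h2⟩⟩
    have := (h j).1
    omega
  set Ak : ℕ → Finset ℕ := fun k => (EN E (N (k + 1))).filter fun e =>
    2 * N k + x k + k + 1 < e ∧ ∀ i ≤ k, ∀ r ∈ Ico (x i) (x i + (i + 1)), e + r ∉ E with hAk
  have hAkc : ∀ k, ((EN E (N (k + 1))).card : ℝ) ≤ 2 * (Ak k).card := by
    intro k
    set S := EN E (N (k + 1)) with hS
    have hsub : S ⊆ Ak k ∪ (Icc 1 (2 * N k + x k + k + 1) ∪ (range (k + 1)).biUnion fun i =>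
        S.filter fun e => ∃ r ∈ Ico (x i) (x i + (i + 1)), e + r ∈ E) := by
      intro e he
      rw [mem_union, mem_union]
      by_cases h1 : 2 * N k + x k + k + 1 < e
      · by_cases h2 : ∀ i ≤ k, ∀ r ∈ Ico (x i) (x i + (i + 1)), e + r ∉ E
        · exact Or.inl (mem_filter.mpr ⟨he, h1, h2⟩)
        · push Not at h2
          obtain ⟨i, hi, r, hr, hr'⟩ := h2
          exact Or.inr (Or.inr (mem_biUnion.mpr ⟨i, mem_range.mpr (by omega),
            mem_filter.mpr ⟨he, r, hr, hr'⟩⟩))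
      · exact Or.inr (Or.inl (mem_Icc.mpr ⟨(mem_Icc.mp (mem_filter.mp he).1).1, not_lt.mp h1⟩))
    have h1 := (card_le_card hsub).trans ((card_union_le _ _).trans (add_le_add le_rfl
      ((card_union_le _ _).trans (add_le_add le_rfl card_biUnion_le))))
    have h2 : ∀ i ∈ range (k + 1),
        (S.filter fun e => ∃ r ∈ Ico (x i) (x i + (i + 1)), e + r ∈ E).card ≤
          cnt E (N (k + 1)) (x i) (i + 1) := by
      intro i _
      rw [card_filter]
      refine sum_le_sum fun e _ => ?_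
      split_ifs with hc
      · obtain ⟨r, hr, hr'⟩ := hc
        exact card_pos.mpr ⟨r, mem_filter.mpr ⟨hr, hr'⟩⟩
      · exact Nat.zero_le _
    have h3 := h1.trans (add_le_add le_rfl (add_le_add le_rfl (sum_le_sum h2)))
    rw [Nat.card_Icc, Nat.add_sub_cancel] at h3
    have h4 : (S.card : ℝ) ≤ (Ak k).card + ((2 * N k + x k + k + 1 : ℕ) +
        ∑ i ∈ range (k + 1), (cnt E (N (k + 1)) (x i) (i + 1) : ℝ)) := by exact_mod_cast h3
    have h5 : 4 * ((2 * N k + x k + k + 1 : ℕ) : ℝ) ≤ S.card := by exact_mod_cast (h k).2.1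
    have h6 : ∑ i ∈ range (k + 1), (cnt E (N (k + 1)) (x i) (i + 1) : ℝ) ≤
        ∑ i ∈ range (k + 1), (1 / 8 * (1 / 2) ^ i) * (S.card : ℝ) :=
      sum_le_sum fun i hi => (h k).2.2 i (by have := mem_range.mp hi; omega)
    rw [← sum_mul, ← mul_sum] at h6
    have h7 := sum_geometric_two_le (k + 1)
    have h8 : (0 : ℝ) ≤ S.card := Nat.cast_nonneg _
    have h9 := mul_le_mul_of_nonneg_right h7 h8
    linarith
  obtain ⟨a', ⟨l, ha'⟩, a, ⟨k, ha⟩, r, ⟨i, hr1, hr2⟩, hr⟩ := hI {a | ∃ k, a ∈ Ak k} (by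
      rintro a ⟨k, hk⟩
      exact (mem_filter.mp (mem_filter.mp hk).1).2) (by
      refine lt_of_lt_of_le (by norm_num : (0 : ℝ) < 1 / 2) (le_limsup_of_frequently_le ?_ ?_)
      · rw [frequently_atTop]
        intro M
        have hM := hN1 M
        refine ⟨N (M + 1), by omega, ?_⟩
        have e1 : E ∩ Set.Icc 1 (N (M + 1)) = ↑(EN E (N (M + 1))) := by
          ext a
          simp only [EN, Set.mem_inter_iff, Set.mem_Icc, coe_filter, mem_Icc, Set.mem_ofPred_eq]
          tauto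
        have h1 : (Ak M).card ≤ ({a | ∃ k, a ∈ Ak k} ∩ E ∩ Set.Icc 1 (N (M + 1))).ncard := by
          rw [← Set.ncard_coe_finset]
          refine Set.ncard_le_ncard (fun a ha => ?_) ((Set.finite_Icc _ _).inter_of_right _)
          have h2 := mem_filter.mp (mem_filter.mp ha).1
          exact ⟨⟨⟨M, ha⟩, h2.2⟩, mem_Icc.mp h2.1⟩
        have h2 : ((Ak M).card : ℝ) ≤
            ({a | ∃ k, a ∈ Ak k} ∩ E ∩ Set.Icc 1 (N (M + 1))).ncard := by exact_mod_cast h1
        have h3 : (0 : ℝ) < (EN E (N (M + 1))).card := by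
          have := (h M).2.1
          exact_mod_cast (by omega : 0 < (EN E (N (M + 1))).card)
        rw [e1, Set.ncard_coe_finset, le_div_iff₀ h3]
        linarith [hAkc M]
      · refine isBoundedUnder_of ⟨1, fun M => ?_⟩
        refine div_le_one_of_le₀ ?_ (Nat.cast_nonneg _)
        exact_mod_cast Set.ncard_le_ncard (Set.inter_subset_inter_left _ Set.inter_subset_right)
          ((Set.finite_Icc _ _).inter_of_right _))
  have a1 := mem_filter.mp ha
  have a2 := mem_filter.mp ha'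
  have a3 := mem_filter.mp a1.1
  have a4 := mem_filter.mp a2.1
  have a5 := mem_Icc.mp a3.1
  have a6 := mem_Icc.mp a4.1
  by_cases hik : i ≤ k
  · exact a1.2.2 i hik r (mem_Ico.mpr ⟨hr1, by omega⟩) (hr ▸ a4.2)
  · have b1 := (h i).1
    have b2 : i ≤ l := by
      by_contra hc
      have := hmono (show l + 1 ≤ i by omega)
      omega
    have b3 := hmono (show k + 1 ≤ l by omega)
    have b4 := a2.2.1
    rcases b2.lt_or_eq with b5 | b5
    · have := hmono (show i + 1 ≤ l by omega)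
      have := hN1 i
      omega
    · subst b5
      omega

end Pool.Agent.Results.MP_7e65d6_nt.Full
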